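import Pool.Agent.D0H90.SM.Short

set_option autoImplicit false

/-!
# The singular locus of the moduli space of endomorphisms of projective space

`k` is algebraically closed of characteristic 0, `N, d ≥ 2`. A map `f ∈ End_d^N(k)` is given by the
coefficients `f : Cf (N + 1) d → k` of `N + 1` forms of degree `d` without common zero (`Nondeg f`).
`M_d^N = End_d^N / PGL_{N+1}` is the geometric quotient of the space of nondegenerate tuples by the
conjugation action `f ↦ A⁻¹ ∘ f ∘ A` of `GL_{N+1}` (a scalar `r` acts as multiplication by `r^(d-1)`, so that
this action includes the rescaling of the tuple). Its local ring at the class of `f` is `localRing f`, the
ring of the invariant rational functions on the space of tuples which are regular at `f`.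

The theorem: this local ring is regular (in the sense of Mathlib: Noetherian, with a maximal ideal
generated by as many elements as the dimension) if and only if `f` has no non-trivial automorphism. So
the singular points of `M_d^N` are the classes of the maps with a non-trivial automorphism group.

Idea of the proof. The slice `Y` of the tuples with prescribed coefficients at the pure powers `x_i^d` is
transversal to a suitable point of the orbit of `f`. For `y ∈ Y` the matrices `E` with
`y(E e_i) = E y(e_i)` form a finite set; the symmetric functions of functions of these solutions, divided by
a power of a semi-invariant, are invariant rational functions regular at `f`, and there are enough of them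
to have independent differentials at all points of `Y` near `f` without automorphisms. If `f` has a
non-trivial automorphism and the local ring were regular, then the Jacobian determinant of generators of
the maximal ideal would vanish on a divisor of `Y` through `f`, which contains points without
automorphisms since the fixed loci have codimension `≥ 2` (here `N ≥ 2` is used); a contradiction. In the
other direction the sum over the solutions gives a retraction from the functions on `Y` to the invariant
ones. No slice theorem and no theorem of geometric invariant theory is assumed.
-/

namespace Pool.Agent.Results.MP_807a54_ag.SingularLocus

open Pool.Agent.D0H90.SM

universe u

/-- The local ring of `M_d^N` (`N, d ≥ 2`) at the class of `f` is regular if and only if `f` has no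
non-trivial automorphism. -/
theorem result (k : Type u) [Field k] [IsAlgClosed k] [CharZero k] (N d : ℕ) (hN : 2 ≤ N)
    (hd : 2 ≤ d) (f : Cf (N + 1) d → k) (hf : Nondeg f) :
    IsRegularLocalRing (localRing f) ↔ ¬ HasAut f :=
  final k N d hN hd f hf

end Pool.Agent.Results.MP_807a54_ag.SingularLocus
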